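import Pool.Agent.H993R3.RA.T_IND
import Pool.Agent.H993R3.RA.T_BND
import Pool.Agent.H993R3.RA.T_CONJ
import Pool.Agent.H993R3.RA.T_SPL
import Pool.Agent.H993R3.RA.T_COS
import Pool.Agent.H993R3.RA.T_INT
import Pool.Agent.H993R3.RA.T_CLS
import Pool.Agent.H993R3.RA.T_MER
import Pool.Agent.H993R3.RA.T_FAC
import Pool.Agent.H993R3.RA.T_MAIN

set_option autoImplicit false

/-!
# Unit and rational distances with rational angles

Let G be a set of ordered pairs of points of an n-point set P of the plane at rational distance and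
with rational angle, such that every point has at most D out-neighbours and at most D in-neighbours
in each direction. Then G has O(D n log n loglog n) elements. For unit distances D = 2; for rational
distances in sets without three collinear points D = 1.
-/

namespace Pool.Agent.Results.MP_05df08_co.RationalAngles

open Classical Pool.Agent.H993R3.RA

theorem result :
    ∃ C : ℝ, 0 < C ∧ ∀ (P : Finset ℂ) (D : ℕ) (G : Finset (ℂ × ℂ)), 2 ≤ P.card →
      (∀ e ∈ G, e.1 ∈ P ∧ e.2 ∈ P ∧ ∃ (r : ℚ) (ω : ℂ), r ≠ 0 ∧ (∃ N : ℕ, 0 < N ∧ ω ^ N = 1) ∧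
        e.2 - e.1 = r • ω) →
      (∀ ω : ℂ, (∃ N : ℕ, 0 < N ∧ ω ^ N = 1) → ∀ p ∈ P,
        (G.filter (fun e => e.1 = p ∧ ∃ r : ℚ, e.2 - e.1 = r • ω)).card ≤ D ∧
        (G.filter (fun e => e.2 = p ∧ ∃ r : ℚ, e.2 - e.1 = r • ω)).card ≤ D) →
      (G.card : ℝ) ≤ C * D * P.card * Real.log P.card * Real.log (2 + Real.log P.card) := by
  have hMain : S_MAIN :=
    MAIN_ok (BND_ok IND_ok) (CLS_ok (COS_ok (SPL_ok CONJ_ok)) INT_ok) MER_ok FAC_ok
  obtain ⟨C, hC, h⟩ := hMain
  refine ⟨C, hC, fun P D G hP h1 h2 => ?_⟩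
  exact h P D G hP h1 h2

end Pool.Agent.Results.MP_05df08_co.RationalAngles
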